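import Pool.Agent.W253.PP.OFDP3

set_option autoImplicit false

/-!
PP project, task OFDP (helper253): the off-diagonal terms.
Adapted from `Pool.Agent.W108.KS.OFDK`.
-/

namespace Pool.Agent.W253.PP

open Finset
open Pool.Agent.H442R2
open Pool.Agent.H442R2.KF
open Pool.Agent.H442R2.BX
open Pool.Agent.H442R2.BX.TaskEX
open Pool.Agent.W23.DC
open Pool.Agent.W23.SG
open Pool.Agent.W23.PL
open Pool.Agent.W23.KT
open Pool.Agent.W23.PP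
open Pool.Agent.W372.PL (Ev_eq II_nonneg II_le_one mem_roughs roughs_sub sum_II
  card_roughs harm Ev_abs_le Ev_le_tau tsW1)

theorem OFDP (hTTCP : St_TTCP) (hPBP : St_PBP) (hRTP : St_RTP) (_hGS : BX.St_GS)
    (_hRB : BX.St_RB) : St_OFDP := by
  classical
  intro k M hk
  refine ⟨1 / 1000, by norm_num, by norm_num, ?_⟩
  intro ε₁ hε₁ hε₁1
  have hε : 0 < ε₁ / 2 := by positivity
  obtain ⟨N₁, hTT⟩ := hTTCP
  obtain ⟨c₁, hc₁, hPB0⟩ := hPBP k M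
  obtain ⟨N₂, hPB⟩ := hPB0 (ε₁ / 2) hε (by linarith)
  obtain ⟨C0, hC0def⟩ : ∃ C0 : ℝ, C0 = Real.exp (c₁ / (ε₁ / 2)) := ⟨_, rfl⟩
  have hC0 : 0 < C0 := by rw [hC0def]; exact Real.exp_pos _
  obtain ⟨m, hm⟩ : ∃ m : ℕ, m = M + k := ⟨_, rfl⟩
  have hm1 : 1 ≤ m := by omega
  have hm0 : (0 : ℝ) < m := by exact_mod_cast hm1
  obtain ⟨κ, hκ, hk1, hk2⟩ : ∃ κ : ℝ, 0 < κ ∧ κ ≤ ε₁ / 64 ∧ κ ≤ 1 / 1000 :=
    ⟨min (ε₁ / 64) (1 / 1000), lt_min (by positivity) (by norm_num), min_le_left _ _,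
      min_le_right _ _⟩
  have hκm : (m : ℝ) * (κ / m) = κ := by field_simp
  obtain ⟨Cτ, hCτ, hτ⟩ := Pool.Agent.H510R2.divisor_bound (κ / m) (by positivity)
  obtain ⟨η, hη, hh1, hh2⟩ : ∃ η : ℝ, 0 < η ∧ η ≤ ε₁ / 8 ∧ η ≤ 1 / 200 :=
    ⟨min (ε₁ / 8) (1 / 200), lt_min (by positivity) (by norm_num), min_le_left _ _,
      min_le_right _ _⟩
  obtain ⟨C₁, hC₁def⟩ : ∃ C₁ : ℝ, C₁ = ((k : ℝ) + 1) ^ (1 / (ε₁ / 2)) := ⟨_, rfl⟩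
  have hC₁0 : 0 < C₁ := by
    rw [hC₁def]
    have : (0 : ℝ) ≤ k := by positivity
    positivity
  obtain ⟨Lg, hLg⟩ : ∃ Lg : ℝ, Lg = 1 + 1 / κ := ⟨_, rfl⟩
  have hLg0 : 0 < Lg := by rw [hLg]; positivity
  obtain ⟨Cb, hCb⟩ : ∃ Cb : ℝ, Cb = 4 * C₁ ^ 2 / κ ^ 3 +
    (3 * k) * (2 * (1 + C₁) ^ 2 / κ ^ 3) +
    2 * (Cτ ^ 3 / κ ^ 3) * (12 * (C0 ^ 2 * ((M : ℝ) / (ε₁ / 2) * (k : ℝ))) +
      12 * (C₁ * Lg * (2 * C0 + C₁ * Lg) / (ε₁ / 2))) := ⟨_, rfl⟩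
  have hCb0 : 0 < Cb := by rw [hCb]; positivity
  refine ⟨η, Cb, max 2 (max N₁ N₂), hη, hCb0, ?_⟩
  intro N D X hN0' _hD1 hDN hXdef φ0 φ1 φ2 hφ0 hφ1 hφ2 hCp Q0 Q1 Q2 hQ0 hQ1' hQ2 t0 t1 t2 ht0 ht1
    ht2 hp0 hp1 hp2 c c' hc hc' hcB hcB'
  have hN : 2 ≤ N := (le_max_left _ _).trans hN0'
  have hNN1 : N₁ ≤ N := ((le_max_left _ _).trans (le_max_right _ _)).trans hN0'
  have hNN2 : N₂ ≤ N := ((le_max_right _ _).trans (le_max_right _ _)).trans hN0'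
  have hN0 : (0 : ℝ) < N := by exact_mod_cast (by omega : 0 < N)
  have hN1 : (1 : ℝ) ≤ N := by exact_mod_cast (by omega : 1 ≤ N)
  have hN1' : 1 ≤ N := by omega
  have hNle : ∀ s t : ℝ, s ≤ t → (N : ℝ) ^ s ≤ (N : ℝ) ^ t := fun s t hst =>
    Real.rpow_le_rpow_of_exponent_le hN1 hst
  have hXθ : (X : ℝ) ≤ (N : ℝ) ^ (49 / 100 : ℝ) := by
    rw [hXdef]
    exact Nat.floor_le (by positivity)
  have hleN : ∀ (j : ℕ) (s : ℝ), s ≤ 1 → (j : ℝ) ≤ (N : ℝ) ^ s → j ≤ N := by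
    intro j s hs hj
    have h1 : (j : ℝ) ≤ N := by
      calc (j : ℝ) ≤ (N : ℝ) ^ s := hj
        _ ≤ (N : ℝ) ^ (1 : ℝ) := hNle _ _ hs
        _ = N := Real.rpow_one _
    exact_mod_cast h1
  have hXN' : X ≤ N := hleN X _ (by norm_num) hXθ
  have hlogpos : 0 < Real.log N := Real.log_pos (by exact_mod_cast (by omega : 1 < N))
  have hwg : ∀ (φ : ℤ → ℤ) (b : ℕ → ℝ), Sy k M N φ → CofP ((N : ℝ) ^ (ε₁ / 2)) X b →
      ∀ d, b d ≠ 0 → (nr φ d : ℝ) ≤ C₁ := by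
    intro φ b hφ hb d hd
    obtain ⟨h1, h2, h3, h4⟩ := hb.supp d hd
    have h5 := ((hRTP.2.2 k M N φ hφ).2 d h3).2
    refine h5.trans ?_
    rw [hC₁def]
    exact Pool.Agent.W82.KT.kw_le k hε hN h1.le (h2.trans hXN') h4
  have hw := hwg φ1 c hφ1 hc
  have hw' := hwg φ2 c' hφ2 hc'
  -- prime factors of the moduli
  have hpf : ∀ (d : ℕ), BlP N ε₁ d → ∀ p : ℕ, p.Prime → p ∣ d →
      (N : ℝ) ^ ε₁ ≤ p := by
    intro d hd p hpp hpd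
    have h1 := hd.2.2.2 p hpp hpd
    have hp0 : (0 : ℝ) < p := by exact_mod_cast hpp.pos
    unfold tt at h1
    rw [le_div_iff₀ hlogpos] at h1
    rw [Real.rpow_def_of_pos hN0, ← Real.exp_log hp0]
    exact Real.exp_le_exp.2 (by linarith)
  -- the coprime pairs
  have hcop : |∑' n : ℤ, Wt N n * (Ev t0 D (φ0 n) * (Ev t1 D (φ1 n) * Ev t2 D (φ2 n))) *
      Mc φ1 φ2 c c' X n| ≤
      (D : ℝ) ^ 3 * Real.log N ^ 3 * ((N : ℝ) ^ (3 / 1000 : ℝ) * (4 * C₁ ^ 2)) := by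
    refine cop_part N D X hN1' (Real.log N) (4 * C₁ ^ 2) ((N : ℝ) ^ (3 / 1000 : ℝ))
      hlogpos.le (by positivity) (by positivity) t0 t1 t2 ht0.bd ht1.bd ht2.bd φ0 φ1 φ2
      hφ0.per hφ1.per hφ2.per c c' ?_
    intro q hq e he e' he' hq0 he0 he0'
    obtain ⟨hk0s, hk0D, hk0P⟩ := ht0.supp q hq0
    obtain ⟨hk1s, hk1D, hk1P⟩ := ht1.supp e he0
    obtain ⟨hk2s, hk2D, hk2P⟩ := ht2.supp e' he0'
    have hQd : Nat.lcm q (Nat.lcm e e') ∣ q * (e * e') :=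
      (Nat.lcm_dvd_mul _ _).trans (mul_dvd_mul dvd_rfl (Nat.lcm_dvd_mul e e'))
    have hQ1 : 1 ≤ Nat.lcm q (Nat.lcm e e') :=
      Nat.lcm_pos (Finset.mem_Icc.1 hq).1
        (Nat.lcm_pos (Finset.mem_Icc.1 he).1 (Finset.mem_Icc.1 he').1)
    generalize Nat.lcm q (Nat.lcm e e') = Q at hQd hQ1
    -- prime factors of Q
    have hQp : ∀ p : ℕ, p.Prime → p ∣ Q → (p : ℝ) < (N : ℝ) ^ ε₁ := by
      intro p hpp hpQ
      rcases (Nat.Prime.dvd_mul hpp).1 (hpQ.trans hQd) with h | h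
      · exact (hQ0 p (hk0P p hpp h)).2
      · rcases (Nat.Prime.dvd_mul hpp).1 h with h | h
        · exact (hQ1' p (hk1P p hpp h)).2
        · exact (hQ2 p (hk2P p hpp h)).2
    have hQle : (Q : ℝ) ≤ (N : ℝ) ^ (3 / 1000 : ℝ) := by
      have h1 : Q ≤ q * (e * e') := Nat.le_of_dvd (by
        have : 0 < q := Nat.pos_of_ne_zero hk0s.ne_zero
        have : 0 < e := Nat.pos_of_ne_zero hk1s.ne_zero
        have : 0 < e' := Nat.pos_of_ne_zero hk2s.ne_zero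
        positivity) hQd
      have h2 : (Q : ℝ) ≤ q * (e * e') := by exact_mod_cast h1
      have g1 : (q : ℝ) ≤ (N : ℝ) ^ (1 / 1000 : ℝ) :=
        (by exact_mod_cast hk0D : (q : ℝ) ≤ D).trans hDN
      have g3 : (e : ℝ) ≤ (N : ℝ) ^ (1 / 1000 : ℝ) :=
        (by exact_mod_cast hk1D : (e : ℝ) ≤ D).trans hDN
      have g4 : (e' : ℝ) ≤ (N : ℝ) ^ (1 / 1000 : ℝ) :=
        (by exact_mod_cast hk2D : (e' : ℝ) ≤ D).trans hDN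
      calc (Q : ℝ) ≤ q * (e * e') := h2
        _ ≤ (N : ℝ) ^ (1 / 1000 : ℝ) *
            ((N : ℝ) ^ (1 / 1000 : ℝ) * (N : ℝ) ^ (1 / 1000 : ℝ)) := by gcongr
        _ = (N : ℝ) ^ (3 / 1000 : ℝ) := by
            rw [← Real.rpow_add hN0, ← Real.rpow_add hN0]
            norm_num
    refine ⟨hQle, fun b => ?_⟩
    have hcopr : ∀ (d : ℕ), BlP N ε₁ d → Nat.Coprime Q d := by
      intro d hd
      refine Nat.coprime_of_dvd ?_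
      intro p hpp hp1 hp2
      have h1 := hpf d hd p hpp hp2
      have h2 := hQp p hpp hp1
      linarith
    have hXR : ∀ d : ℕ, d ≤ X → (d : ℝ) ≤ (N : ℝ) ^ (49 / 100 : ℝ) := fun d hd =>
      (by exact_mod_cast hd : (d : ℝ) ≤ X).trans hXθ
    have hterm : ∀ d ∈ Icc 1 X, ∀ d' ∈ (Icc 1 X).filter (fun d' => Nat.Coprime d d'),
        |c d * c' d' * ∑' n : ℤ, (if (Q : ℤ) ∣ n - b then Wt N n else 0) *
          (dP φ1 d n * dP φ2 d' n)| ≤ 4 * C₁ ^ 2 / (N : ℝ) ^ 5 := by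
      intro d hd d' hd'
      rw [mem_filter, mem_Icc] at hd'
      rw [mem_Icc] at hd
      by_cases h1 : c d = 0
      · rw [h1, zero_mul, zero_mul, abs_zero]; positivity
      by_cases h2 : c' d' = 0
      · rw [h2, mul_zero, zero_mul, abs_zero]; positivity
      have b1 := hcB d h1
      have b2 := hcB' d' h2
      have hQdd : ((Q * d * d' : ℕ) : ℝ) ≤ (N : ℝ) ^ (199 / 200 : ℝ) := by
        push_cast
        have g1 := hXR d hd.2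
        have g2 := hXR d' hd'.1.2
        calc (Q : ℝ) * d * d' ≤ (N : ℝ) ^ (3 / 1000 : ℝ) * (N : ℝ) ^ (49 / 100 : ℝ) *
            (N : ℝ) ^ (49 / 100 : ℝ) := by gcongr
          _ = (N : ℝ) ^ ((3 / 1000 : ℝ) + 49 / 100 + 49 / 100) := by
              rw [← Real.rpow_add hN0, ← Real.rpow_add hN0]
          _ ≤ _ := hNle _ _ (by norm_num)
      have h3 := hTT N hNN1 Q d d' hQ1 hd.1 hd'.1.1 (hcopr d b1)
        (hcopr d' b2) hd'.2 hQdd φ1 φ2 hφ1.per hφ2.per b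
      have w1 := hw d h1
      have w2 := hw' d' h2
      have w0 := nr_nonneg φ1 d
      have w0' := nr_nonneg φ2 d'
      have h4 : |c d * c' d'| ≤ 1 := by
        rw [abs_mul]
        calc |c d| * |c' d'| ≤ 1 * 1 :=
              mul_le_mul (hc.bd d) (hc'.bd d') (abs_nonneg _) zero_le_one
          _ = 1 := one_mul 1
      rw [abs_mul]
      calc |c d * c' d'| * |∑' n : ℤ, (if (Q : ℤ) ∣ n - b then Wt N n else 0) *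
          (dP φ1 d n * dP φ2 d' n)| ≤ 1 * (4 * ((nr φ1 d : ℝ) * nr φ2 d') / (N : ℝ) ^ 5) :=
            mul_le_mul h4 h3 (abs_nonneg _) zero_le_one
        _ = 4 * ((nr φ1 d : ℝ) * nr φ2 d') / (N : ℝ) ^ 5 := one_mul _
        _ ≤ 4 * C₁ ^ 2 / (N : ℝ) ^ 5 := by
            refine div_le_div_of_nonneg_right ?_ (by positivity)
            have : (nr φ1 d : ℝ) * nr φ2 d' ≤ C₁ * C₁ := mul_le_mul w1 w2 w0' hC₁0.le
            nlinarith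
    calc _ ≤ ∑ d ∈ Icc 1 X, ∑ d' ∈ (Icc 1 X).filter (fun d' => Nat.Coprime d d'),
        4 * C₁ ^ 2 / (N : ℝ) ^ 5 := by
          refine (Finset.abs_sum_le_sum_abs _ _).trans (Finset.sum_le_sum fun d hd => ?_)
          exact (Finset.abs_sum_le_sum_abs _ _).trans (Finset.sum_le_sum fun d' hd' =>
            hterm d hd d' hd')
      _ ≤ ∑ d ∈ Icc 1 X, ∑ d' ∈ Icc 1 X, 4 * C₁ ^ 2 / (N : ℝ) ^ 5 := by
          refine Finset.sum_le_sum fun d _ => ?_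
          exact Finset.sum_le_sum_of_subset_of_nonneg (filter_subset _ _)
            fun _ _ _ => by positivity
      _ = (X : ℝ) * (X * (4 * C₁ ^ 2 / (N : ℝ) ^ 5)) := by
          rw [Finset.sum_const, Finset.sum_const, nsmul_eq_mul, nsmul_eq_mul, Nat.card_Icc,
            Nat.add_sub_cancel]
      _ ≤ 4 * C₁ ^ 2 := by
          have hXN : (X : ℝ) ≤ N := by exact_mod_cast hXN'
          have e1 : (X : ℝ) * (X * (4 * C₁ ^ 2 / (N : ℝ) ^ 5)) =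
              (X : ℝ) ^ 2 * (4 * C₁ ^ 2) / (N : ℝ) ^ 5 := by ring
          rw [e1, div_le_iff₀ (by positivity)]
          have h5 : (X : ℝ) ^ 2 ≤ (N : ℝ) ^ 2 := pow_le_pow_left₀ (by positivity) hXN 2
          have h6 : (N : ℝ) ^ 2 ≤ (N : ℝ) ^ 5 := pow_le_pow_right₀ hN1 (by norm_num)
          calc (X : ℝ) ^ 2 * (4 * C₁ ^ 2) ≤ (N : ℝ) ^ 5 * (4 * C₁ ^ 2) :=
                mul_le_mul_of_nonneg_right (h5.trans h6) (by positivity)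
            _ = _ := by ring
  have htot := total k M N D X hN hXN' (ε₁ / 2) hε (Real.log N) Q0 Q1 Q2 t0 t1 t2
    ht0 ht1 ht2 hp0 hp1 hp2 φ0 φ1 φ2 hφ0 hφ1 hφ2 hCp c c' hc hc' C₁ hC₁0.le hw hw' C0 hC0.le
    (fun V hV n hn => by rw [hC0def]; exact (hPB N X hNN2 hXN' V hV).1 n hn) (κ / m) Cτ
    (by positivity) (by rw [← hm, hκm]; linarith) hCτ hτ _ hcop
  rw [← hm, hκm] at htot
  refine htot.trans ?_
  -- exponents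
  have hU : Real.log N ≤ (N : ℝ) ^ κ / κ := Real.log_le_rpow_div hN0.le hκ
  set U := Real.log N with hUdef
  have hU3 : U ^ 3 ≤ (N : ℝ) ^ (3 * κ) / κ ^ 3 := by
    calc U ^ 3 ≤ ((N : ℝ) ^ κ / κ) ^ 3 := pow_le_pow_left₀ hlogpos.le hU 3
      _ = (N : ℝ) ^ (3 * κ) / κ ^ 3 := by
        rw [div_pow, ← Real.rpow_natCast, ← Real.rpow_mul hN0.le]
        push_cast
        rw [mul_comm κ 3]
  have hD3 : (D : ℝ) ^ 3 ≤ (N : ℝ) ^ (3 / 1000 : ℝ) := by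
    calc (D : ℝ) ^ 3 ≤ ((N : ℝ) ^ (1 / 1000 : ℝ)) ^ 3 := pow_le_pow_left₀ (by positivity) hDN 3
      _ = (N : ℝ) ^ (3 / 1000 : ℝ) := by
        rw [← Real.rpow_natCast, ← Real.rpow_mul hN0.le]
        norm_num
  have hA1 : (D : ℝ) ^ 3 * U ^ 3 ≤ (N : ℝ) ^ (3 / 1000 + 3 * κ) / κ ^ 3 := by
    calc (D : ℝ) ^ 3 * U ^ 3 ≤
        (N : ℝ) ^ (3 / 1000 : ℝ) * ((N : ℝ) ^ (3 * κ) / κ ^ 3) := by
          gcongr
      _ = (N : ℝ) ^ (3 / 1000 + 3 * κ) / κ ^ 3 := by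
        rw [mul_div_assoc', ← Real.rpow_add hN0]
  have hK1 : Cτ ^ 3 * U ^ 3 * (N : ℝ) ^ (3 * κ) ≤ Cτ ^ 3 / κ ^ 3 * (N : ℝ) ^ (6 * κ) := by
    calc Cτ ^ 3 * U ^ 3 * (N : ℝ) ^ (3 * κ) ≤
        Cτ ^ 3 * ((N : ℝ) ^ (3 * κ) / κ ^ 3) * (N : ℝ) ^ (3 * κ) := by gcongr
      _ = Cτ ^ 3 / κ ^ 3 * ((N : ℝ) ^ (3 * κ) * (N : ℝ) ^ (3 * κ)) := by ring
      _ = Cτ ^ 3 / κ ^ 3 * (N : ℝ) ^ (6 * κ) := by
        rw [← Real.rpow_add hN0]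
        congr 2
        ring
  have hNk1 : (1 : ℝ) ≤ (N : ℝ) ^ κ := Real.one_le_rpow hN1 hκ.le
  -- term 1
  have t1' : (D : ℝ) ^ 3 * U ^ 3 * ((N : ℝ) ^ (3 / 1000 : ℝ) * (4 * C₁ ^ 2)) ≤
      4 * C₁ ^ 2 / κ ^ 3 * (N : ℝ) ^ (1 - η) := by
    calc (D : ℝ) ^ 3 * U ^ 3 * ((N : ℝ) ^ (3 / 1000 : ℝ) * (4 * C₁ ^ 2)) ≤
        (N : ℝ) ^ (3 / 1000 + 3 * κ) / κ ^ 3 * ((N : ℝ) ^ (3 / 1000 : ℝ) * (4 * C₁ ^ 2)) :=
          mul_le_mul_of_nonneg_right hA1 (by positivity)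
      _ = 4 * C₁ ^ 2 / κ ^ 3 * ((N : ℝ) ^ (3 / 1000 + 3 * κ) * (N : ℝ) ^ (3 / 1000 : ℝ)) := by
          ring
      _ ≤ 4 * C₁ ^ 2 / κ ^ 3 * (N : ℝ) ^ (1 - η) := by
          rw [← Real.rpow_add hN0]
          exact mul_le_mul_of_nonneg_left (hNle _ _ (by linarith)) (by positivity)
  -- term 2
  have t2' : (3 * (k : ℝ)) * ((D : ℝ) ^ 3 * U ^ 3 *
      (2 * ((X * (1 + C₁)) * (X * (1 + C₁))))) ≤
      (3 * k) * (2 * (1 + C₁) ^ 2 / κ ^ 3) * (N : ℝ) ^ (1 - η) := by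
    calc (3 * (k : ℝ)) * ((D : ℝ) ^ 3 * U ^ 3 *
        (2 * ((X * (1 + C₁)) * (X * (1 + C₁))))) ≤
        (3 * (k : ℝ)) * ((N : ℝ) ^ (3 / 1000 + 3 * κ) / κ ^ 3 *
        (2 * (((N : ℝ) ^ (49 / 100 : ℝ) * (1 + C₁)) * ((N : ℝ) ^ (49 / 100 : ℝ) * (1 + C₁))))) := by
          gcongr
      _ = (3 * k) * (2 * (1 + C₁) ^ 2 / κ ^ 3) *
          ((N : ℝ) ^ (3 / 1000 + 3 * κ) * (N : ℝ) ^ (49 / 100 : ℝ) * (N : ℝ) ^ (49 / 100 : ℝ)) := by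
          ring
      _ ≤ (3 * k) * (2 * (1 + C₁) ^ 2 / κ ^ 3) * (N : ℝ) ^ (1 - η) := by
          rw [← Real.rpow_add hN0, ← Real.rpow_add hN0]
          exact mul_le_mul_of_nonneg_left (hNle _ _ (by linarith)) (by positivity)
  -- term 3
  have hlin1 : 1 + U ≤ Lg * (N : ℝ) ^ κ := by
    have h1 : U ≤ 1 / κ * (N : ℝ) ^ κ := by
      rw [one_div, inv_mul_eq_div]; exact hU
    have h3 : Lg * (N : ℝ) ^ κ = (N : ℝ) ^ κ + 1 / κ * (N : ℝ) ^ κ := by rw [hLg]; ring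
    linarith
  have hlin2 : 2 * C0 + C₁ * (1 + U) ≤ (2 * C0 + C₁ * Lg) * (N : ℝ) ^ κ := by
    have h1 : 2 * C0 ≤ 2 * C0 * (N : ℝ) ^ κ := le_mul_of_one_le_right (by positivity) hNk1
    have h2 := mul_le_mul_of_nonneg_left hlin1 hC₁0.le
    linarith
  have hy0 : 0 < (N : ℝ) ^ (ε₁ / 2) := by positivity
  have hNy : (N : ℝ) / (N : ℝ) ^ (ε₁ / 2) = (N : ℝ) ^ (1 - ε₁ / 2) := by
    rw [Real.rpow_sub hN0, Real.rpow_one]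
  have hNy1 : (1 : ℝ) ≤ (N : ℝ) ^ (1 - ε₁ / 2) := Real.one_le_rpow hN1 (by linarith)
  have u1 : 4 * (2 * (N : ℝ) / (N : ℝ) ^ (ε₁ / 2) + 1) ≤ 12 * (N : ℝ) ^ (1 - ε₁ / 2) := by
    have e1 : 2 * (N : ℝ) / (N : ℝ) ^ (ε₁ / 2) = 2 * (N : ℝ) ^ (1 - ε₁ / 2) := by
      rw [mul_div_assoc, hNy]
    rw [e1]
    linarith
  have u2 : (C₁ * (1 / (ε₁ / 2) * ((1 + U) / (N : ℝ) ^ (ε₁ / 2)))) * (2 * C0 + C₁ * (1 + U)) *
      (4 * (2 * (N : ℝ) + 1)) ≤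
      12 * (C₁ * Lg * (2 * C0 + C₁ * Lg) / (ε₁ / 2)) *
        ((N : ℝ) ^ (2 * κ) * (N : ℝ) ^ (1 - ε₁ / 2)) := by
    have e2 : (N : ℝ) ^ κ * (N : ℝ) ^ κ = (N : ℝ) ^ (2 * κ) := by
      rw [← Real.rpow_add hN0]; congr 1; ring
    calc (C₁ * (1 / (ε₁ / 2) * ((1 + U) / (N : ℝ) ^ (ε₁ / 2)))) * (2 * C0 + C₁ * (1 + U)) *
        (4 * (2 * (N : ℝ) + 1)) ≤
        (C₁ * (1 / (ε₁ / 2) * ((Lg * (N : ℝ) ^ κ) / (N : ℝ) ^ (ε₁ / 2)))) *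
          ((2 * C0 + C₁ * Lg) * (N : ℝ) ^ κ) * (12 * (N : ℝ)) := by
          have e3 : 4 * (2 * (N : ℝ) + 1) ≤ 12 * (N : ℝ) := by linarith
          have e4 : (0 : ℝ) ≤ 1 + U := by linarith
          refine mul_le_mul (mul_le_mul ?_ hlin2 (by positivity) (by positivity)) e3
            (by positivity) (by positivity)
          refine mul_le_mul_of_nonneg_left (mul_le_mul_of_nonneg_left ?_ (by positivity)) hC₁0.le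
          exact div_le_div_of_nonneg_right hlin1 hy0.le
      _ = 12 * (C₁ * Lg * (2 * C0 + C₁ * Lg) / (ε₁ / 2)) *
          (((N : ℝ) ^ κ * (N : ℝ) ^ κ) * ((N : ℝ) / (N : ℝ) ^ (ε₁ / 2))) := by
          ring
      _ = _ := by rw [e2, hNy]
  have hE0 : (0 : ℝ) ≤ C0 ^ 2 * ((M : ℝ) / (ε₁ / 2) * (k : ℝ)) := by
    positivity
  have u3 : C0 ^ 2 * ((M : ℝ) / (ε₁ / 2) * ((k : ℝ) *
      (4 * (2 * (N : ℝ) / (N : ℝ) ^ (ε₁ / 2) + 1)))) ≤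
      12 * (C0 ^ 2 * ((M : ℝ) / (ε₁ / 2) * (k : ℝ))) *
        ((N : ℝ) ^ (2 * κ) * (N : ℝ) ^ (1 - ε₁ / 2)) := by
    have e1 : (1 : ℝ) ≤ (N : ℝ) ^ (2 * κ) := Real.one_le_rpow hN1 (by positivity)
    have e2 : (N : ℝ) ^ (1 - ε₁ / 2) ≤ (N : ℝ) ^ (2 * κ) * (N : ℝ) ^ (1 - ε₁ / 2) :=
      le_mul_of_one_le_left (by positivity) e1
    calc C0 ^ 2 * ((M : ℝ) / (ε₁ / 2) * ((k : ℝ) *
        (4 * (2 * (N : ℝ) / (N : ℝ) ^ (ε₁ / 2) + 1)))) =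
        (C0 ^ 2 * ((M : ℝ) / (ε₁ / 2) * (k : ℝ))) *
          (4 * (2 * (N : ℝ) / (N : ℝ) ^ (ε₁ / 2) + 1)) := by ring
      _ ≤ (C0 ^ 2 * ((M : ℝ) / (ε₁ / 2) * (k : ℝ))) *
          (12 * ((N : ℝ) ^ (2 * κ) * (N : ℝ) ^ (1 - ε₁ / 2))) := by
          refine mul_le_mul_of_nonneg_left ?_ hE0
          linarith
      _ = _ := by ring
  have t3' : 2 * (Cτ ^ 3 * U ^ 3 * (N : ℝ) ^ (3 * κ)) *
      (C0 ^ 2 * ((M : ℝ) / (ε₁ / 2) * ((k : ℝ) *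
        (4 * (2 * N / (N : ℝ) ^ (ε₁ / 2) + 1)))) +
        (C₁ * (1 / (ε₁ / 2) * ((1 + U) / (N : ℝ) ^ (ε₁ / 2)))) * (2 * C0 + C₁ * (1 + U)) *
          (4 * (2 * N + 1))) ≤
      2 * (Cτ ^ 3 / κ ^ 3) * (12 * (C0 ^ 2 * ((M : ℝ) / (ε₁ / 2) * (k : ℝ))) +
        12 * (C₁ * Lg * (2 * C0 + C₁ * Lg) / (ε₁ / 2))) * (N : ℝ) ^ (1 - η) := by
    obtain ⟨a1, ha1⟩ : ∃ a1 : ℝ, a1 = C0 ^ 2 * ((M : ℝ) / (ε₁ / 2) * (k : ℝ)) :=
      ⟨_, rfl⟩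
    obtain ⟨a2, ha2⟩ : ∃ a2 : ℝ, a2 = C₁ * Lg * (2 * C0 + C₁ * Lg) / (ε₁ / 2) := ⟨_, rfl⟩
    have ha10 : 0 ≤ a1 := by rw [ha1]; exact hE0
    have ha20 : 0 ≤ a2 := by rw [ha2]; positivity
    rw [← ha1] at u3 ⊢
    rw [← ha2] at u2 ⊢
    have hs := add_le_add u3 u2
    have h3 : (0 : ℝ) ≤ Cτ ^ 3 * U ^ 3 * (N : ℝ) ^ (3 * κ) := by positivity
    have h5 : (N : ℝ) ^ (6 * κ) * ((N : ℝ) ^ (2 * κ) * (N : ℝ) ^ (1 - ε₁ / 2)) ≤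
        (N : ℝ) ^ (1 - η) := by
      rw [← Real.rpow_add hN0, ← Real.rpow_add hN0]
      exact hNle _ _ (by linarith)
    calc _ ≤ 2 * (Cτ ^ 3 * U ^ 3 * (N : ℝ) ^ (3 * κ)) *
          (12 * a1 * ((N : ℝ) ^ (2 * κ) * (N : ℝ) ^ (1 - ε₁ / 2)) +
          12 * a2 * ((N : ℝ) ^ (2 * κ) * (N : ℝ) ^ (1 - ε₁ / 2))) :=
          mul_le_mul_of_nonneg_left hs (by positivity)
      _ ≤ 2 * (Cτ ^ 3 / κ ^ 3 * (N : ℝ) ^ (6 * κ)) *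
          (12 * a1 * ((N : ℝ) ^ (2 * κ) * (N : ℝ) ^ (1 - ε₁ / 2)) +
          12 * a2 * ((N : ℝ) ^ (2 * κ) * (N : ℝ) ^ (1 - ε₁ / 2))) := by
          refine mul_le_mul_of_nonneg_right ?_ (by positivity)
          linarith
      _ = 2 * (Cτ ^ 3 / κ ^ 3) * (12 * a1 + 12 * a2) *
          ((N : ℝ) ^ (6 * κ) * ((N : ℝ) ^ (2 * κ) * (N : ℝ) ^ (1 - ε₁ / 2))) := by ring
      _ ≤ _ := mul_le_mul_of_nonneg_left h5 (by positivity)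
  have hsum := add_le_add (add_le_add t1' t2') t3'
  refine hsum.trans ?_
  rw [← add_mul, ← add_mul]
  refine mul_le_mul_of_nonneg_right ?_ (by positivity)
  rw [← hCb]

end Pool.Agent.W253.PP
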