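import Pool.Agent.W23.PP.Defs
import Pool.Agent.W108.KS.OFDK3

set_option autoImplicit false

/-!
PP project, task OFDP, part 1 (helper253): expansion of the weight and the coprime pairs.
Adapted from `Pool.Agent.W108.KS.OFDK1`.
-/

namespace Pool.Agent.W253.PP

open Finset
open Pool.Agent.H442R2
open Pool.Agent.H442R2.KF
open Pool.Agent.H442R2.BX
open Pool.Agent.H442R2.BX.TaskEX
open Pool.Agent.W23.DC
open Pool.Agent.W23.SG
open Pool.Agent.W23.PL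
open Pool.Agent.W23.KT
open Pool.Agent.W23.PP
open Pool.Agent.W372.PL (Ev_eq II_nonneg II_le_one)

theorem per_iff {F : ℤ → ℤ} (h : Per F) (d : ℕ) (n m : ℤ) (hd : (d : ℤ) ∣ n - m) :
    (d : ℤ) ∣ F n ↔ (d : ℤ) ∣ F m := by
  have h1 : (d : ℤ) ∣ F n - F m := hd.trans (h n m)
  constructor
  · intro h2
    have := dvd_sub h2 h1
    simpa using this
  · intro h2
    have := dvd_add h1 h2
    simpa using this

/-- the indices of the expansion of the weight -/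
def SI3 (D : ℕ) : Finset (ℕ × ℕ × ℕ) := Icc 1 D ×ˢ Icc 1 D ×ˢ Icc 1 D

/-- the coefficients of the expansion of the weight -/
noncomputable def co3 (t0 t1 t2 : ℕ → ℝ) (s : ℕ × ℕ × ℕ) : ℝ :=
  t0 s.1 * (t1 s.2.1 * t2 s.2.2)

/-- the indicators of the expansion of the weight -/
noncomputable def ind (F0 F F' : ℤ → ℤ) (n : ℤ) (s : ℕ × ℕ × ℕ) : ℝ :=
  II s.1 (F0 n) * II s.2.1 (F n) * II s.2.2 (F' n)

theorem G_eq (t0 t1 t2 : ℕ → ℝ) (D : ℕ) (F0 F F' : ℤ → ℤ) (n : ℤ) :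
    Ev t0 D (F0 n) * (Ev t1 D (F n) * Ev t2 D (F' n)) =
      ∑ s ∈ SI3 D, co3 t0 t1 t2 s * ind F0 F F' n s := by
  unfold SI3 co3 ind
  rw [Ev_eq, Ev_eq, Ev_eq, Finset.sum_product, Finset.sum_mul]
  refine Finset.sum_congr rfl fun q _ => ?_
  rw [Finset.sum_product, Finset.sum_mul_sum, Finset.mul_sum]
  refine Finset.sum_congr rfl fun k _ => ?_
  rw [Finset.mul_sum]
  refine Finset.sum_congr rfl fun k' _ => ?_
  ring

theorem dP_eq (F : ℤ → ℤ) (d : ℕ) (n : ℤ) : dP F d n = II d (F n) - (nr F d : ℝ) / (d : ℝ) := by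
  unfold dP II rh
  congr

theorem nr_nonneg (F : ℤ → ℤ) (d : ℕ) : (0 : ℝ) ≤ (nr F d : ℝ) := Nat.cast_nonneg _

theorem dP_abs (F : ℤ → ℤ) (d : ℕ) (n : ℤ) : |dP F d n| ≤ 1 + nr F d := by
  rw [dP_eq]
  have h0 := nr_nonneg F d
  have h1 : (nr F d : ℝ) / (d : ℝ) ≤ nr F d := by
    rcases Nat.eq_zero_or_pos d with h | h
    · rw [h]; simp
    · exact div_le_self h0 (by exact_mod_cast h)
  have h2 : (0 : ℝ) ≤ (nr F d : ℝ) / (d : ℝ) := by positivity
  have h3 := II_nonneg d (F n)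
  have h4 := II_le_one d (F n)
  rw [abs_le]
  constructor <;> linarith

/-- the coprime pairs -/
noncomputable def Mc (F F' : ℤ → ℤ) (c c' : ℕ → ℝ) (X : ℕ) (n : ℤ) : ℝ :=
  ∑ d ∈ Icc 1 X, ∑ d' ∈ (Icc 1 X).filter (fun d' => Nat.Coprime d d'),
    c d * c' d' * (dP F d n * dP F' d' n)

theorem Mc_abs (F F' : ℤ → ℤ) (c c' : ℕ → ℝ) (X : ℕ) (n : ℤ) :
    |Mc F F' c c' X n| ≤ ∑ d ∈ Icc 1 X, ∑ d' ∈ (Icc 1 X).filter (fun d' => Nat.Coprime d d'),
      |c d * c' d'| * ((1 + nr F d) * (1 + nr F' d')) := by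
  unfold Mc
  refine (Finset.abs_sum_le_sum_abs _ _).trans (Finset.sum_le_sum fun d _ => ?_)
  refine (Finset.abs_sum_le_sum_abs _ _).trans (Finset.sum_le_sum fun d' _ => ?_)
  rw [abs_mul]
  refine mul_le_mul_of_nonneg_left ?_ (abs_nonneg _)
  rw [abs_mul]
  have h0 := nr_nonneg F d
  exact mul_le_mul (dP_abs F d n) (dP_abs F' d' n) (abs_nonneg _) (by linarith)

theorem ind_abs (F0 F F' : ℤ → ℤ) (n : ℤ) (s : ℕ × ℕ × ℕ) : |ind F0 F F' n s| ≤ 1 := by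
  unfold ind
  rw [abs_mul, abs_mul]
  have k1 := II_abs s.1 (F0 n)
  have k2 := II_abs s.2.1 (F n)
  have k3 := II_abs s.2.2 (F' n)
  calc |II s.1 (F0 n)| * |II s.2.1 (F n)| * |II s.2.2 (F' n)| ≤ 1 * 1 * 1 := by
        gcongr
    _ = 1 := by norm_num

/-- exchange of the finite sum with the sum over `n` -/
theorem expand (N : ℕ) (hN : 1 ≤ N) (t0 t1 t2 : ℕ → ℝ) (D : ℕ) (F0 F F' : ℤ → ℤ) (H : ℤ → ℝ)
    (B : ℝ) (hH : ∀ n, |H n| ≤ B) :
    ∑' n : ℤ, Wt N n * (Ev t0 D (F0 n) * (Ev t1 D (F n) * Ev t2 D (F' n))) * H n =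
      ∑ s ∈ SI3 D, co3 t0 t1 t2 s * ∑' n : ℤ, Wt N n * (ind F0 F F' n s * H n) := by
  have hB : 0 ≤ B := (abs_nonneg _).trans (hH 0)
  have hs : ∀ s ∈ SI3 D,
      Summable (fun n : ℤ => co3 t0 t1 t2 s * (Wt N n * (ind F0 F F' n s * H n))) := by
    intro s _
    refine Summable.mul_left _ (summable_bd N hN _ (1 * B) fun n => ?_)
    rw [abs_mul]
    exact mul_le_mul (ind_abs F0 F F' n s) (hH n) (abs_nonneg _) zero_le_one
  have h1 : ∀ n : ℤ, Wt N n * (Ev t0 D (F0 n) * (Ev t1 D (F n) * Ev t2 D (F' n))) * H n =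
      ∑ s ∈ SI3 D, co3 t0 t1 t2 s * (Wt N n * (ind F0 F F' n s * H n)) := by
    intro n
    have h2 : Wt N n * (Ev t0 D (F0 n) * (Ev t1 D (F n) * Ev t2 D (F' n))) * H n =
      (Ev t0 D (F0 n) * (Ev t1 D (F n) * Ev t2 D (F' n))) * (Wt N n * H n) := by ring
    rw [h2, G_eq, Finset.sum_mul]
    refine Finset.sum_congr rfl fun s _ => ?_
    ring
  rw [tsum_congr h1, Summable.tsum_finsetSum hs]
  refine Finset.sum_congr rfl fun s _ => ?_
  rw [tsum_mul_left]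

/-- periodic indicators are sums of indicators of residue classes -/
theorem ind_classes (F0 F F' : ℤ → ℤ) (hF0 : Per F0) (hF : Per F) (hF' : Per F')
    (s : ℕ × ℕ × ℕ) (Q : ℕ)
    (hQ : 1 ≤ Q) (h1 : s.1 ∣ Q) (h2 : s.2.1 ∣ Q) (h3 : s.2.2 ∣ Q) (n : ℤ) :
    ind F0 F F' n s = ∑ b ∈ range Q, ind F0 F F' (b : ℤ) s * II Q (n - (b : ℤ)) := by
  have hQ0 : (0 : ℤ) < (Q : ℤ) := by exact_mod_cast hQ
  have e1 := Int.emod_nonneg n hQ0.ne'
  have e2 := Int.emod_lt_of_pos n hQ0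
  have hb : (((n % (Q : ℤ)).toNat : ℕ) : ℤ) = n % (Q : ℤ) := Int.toNat_of_nonneg e1
  have hdv : (Q : ℤ) ∣ n - (((n % (Q : ℤ)).toNat : ℕ) : ℤ) := by
    rw [hb]; exact Int.dvd_self_sub_emod
  have hper : ∀ m : ℤ, (Q : ℤ) ∣ n - m → ind F0 F F' n s = ind F0 F F' m s := by
    intro m hm
    have g1 : (s.1 : ℤ) ∣ n - m := (Int.natCast_dvd_natCast.2 h1).trans hm
    have g2 : (s.2.1 : ℤ) ∣ n - m := (Int.natCast_dvd_natCast.2 h2).trans hm
    have g3 : (s.2.2 : ℤ) ∣ n - m := (Int.natCast_dvd_natCast.2 h3).trans hm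
    have i1 := per_iff hF0 s.1 n m g1
    have i2 := per_iff hF s.2.1 n m g2
    have i3 := per_iff hF' s.2.2 n m g3
    unfold ind II
    simp only [i1, i2, i3]
  rw [Finset.sum_eq_single ((n % (Q : ℤ)).toNat)]
  · rw [← hper _ hdv]
    unfold II
    rw [if_pos hdv, mul_one]
  · intro b hb1 hne
    rw [Finset.mem_range] at hb1
    unfold II
    rw [if_neg, mul_zero]
    intro hd
    apply hne
    have h5 : (Q : ℤ) ∣ (b : ℤ) - n % (Q : ℤ) := by
      have := dvd_sub hdv hd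
      rw [hb] at this
      have e : n - n % (Q : ℤ) - (n - (b : ℤ)) = (b : ℤ) - n % (Q : ℤ) := by ring
      rwa [e] at this
    have h6 : (b : ℤ) - n % (Q : ℤ) = 0 := by
      apply Int.eq_zero_of_abs_lt_dvd h5
      rw [abs_lt]
      constructor <;> omega
    omega
  · intro h
    exfalso
    apply h
    rw [Finset.mem_range]
    omega

/-- one residue class -/
theorem one_class (N : ℕ) (hN : 1 ≤ N) (c c' : ℕ → ℝ) (X Q : ℕ) (F F' : ℤ → ℤ) (b : ℤ) :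
    ∑' n : ℤ, Wt N n * (II Q (n - b) * Mc F F' c c' X n) =
      ∑ d ∈ Icc 1 X, ∑ d' ∈ (Icc 1 X).filter (fun d' => Nat.Coprime d d'), c d * c' d' *
      ∑' n : ℤ, (if (Q : ℤ) ∣ n - b then Wt N n else 0) *
        (dP F d n * dP F' d' n) := by
  have hs : ∀ d d' : ℕ, Summable (fun n : ℤ => c d * c' d' *
      ((if (Q : ℤ) ∣ n - b then Wt N n else 0) * (dP F d n * dP F' d' n))) := by
    intro d d'
    refine Summable.mul_left _ ?_
    have h := summable_bd N hN (fun n : ℤ => II Q (n - b) * (dP F d n * dP F' d' n))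
      (1 * ((1 + nr F d) * (1 + nr F' d'))) (fun n => by
        rw [abs_mul, abs_mul]
        have k1 := II_abs Q (n - b)
        have k2 := dP_abs F d n
        have k3 := dP_abs F' d' n
        have h0 := nr_nonneg F d
        exact mul_le_mul k1 (mul_le_mul k2 k3 (abs_nonneg _) (by linarith)) (by positivity)
          zero_le_one)
    refine h.congr fun n => ?_
    unfold II
    by_cases h1 : (Q : ℤ) ∣ n - b <;> simp [h1]
  have h1 : ∀ n : ℤ, Wt N n * (II Q (n - b) * Mc F F' c c' X n) =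
      ∑ d ∈ Icc 1 X, ∑ d' ∈ (Icc 1 X).filter (fun d' => Nat.Coprime d d'), c d * c' d' *
      ((if (Q : ℤ) ∣ n - b then Wt N n else 0) * (dP F d n * dP F' d' n)) := by
    intro n
    have h2 : Wt N n * (II Q (n - b) * Mc F F' c c' X n) =
        (if (Q : ℤ) ∣ n - b then Wt N n else 0) * Mc F F' c c' X n := by
      unfold II
      by_cases h1 : (Q : ℤ) ∣ n - b <;> simp [h1]
    rw [h2]
    unfold Mc
    rw [Finset.mul_sum]
    refine Finset.sum_congr rfl fun d _ => ?_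
    rw [Finset.mul_sum]
    refine Finset.sum_congr rfl fun d' _ => ?_
    ring
  rw [tsum_congr h1, Summable.tsum_finsetSum fun d _ => summable_sum fun d' _ => hs d d']
  refine Finset.sum_congr rfl fun d _ => ?_
  rw [Summable.tsum_finsetSum fun d' _ => hs d d']
  refine Finset.sum_congr rfl fun d' _ => ?_
  rw [tsum_mul_left]

/-- the coprime pairs, all terms of the expansion -/
theorem cop_part (N D X : ℕ) (hN : 1 ≤ N) (U B Qm : ℝ) (hU : 0 ≤ U) (hB : 0 ≤ B)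
    (hQm : 0 ≤ Qm)
    (t0 t1 t2 : ℕ → ℝ) (ht0 : ∀ q, |t0 q| ≤ U) (ht1 : ∀ k, |t1 k| ≤ U)
    (ht2 : ∀ k, |t2 k| ≤ U) (F0 F F' : ℤ → ℤ) (hF0 : Per F0) (hF : Per F) (hF' : Per F')
    (c c' : ℕ → ℝ)
    (hcl : ∀ q ∈ Icc 1 D, ∀ e ∈ Icc 1 D, ∀ e' ∈ Icc 1 D, t0 q ≠ 0 → t1 e ≠ 0 → t2 e' ≠ 0 →
      ((Nat.lcm q (Nat.lcm e e') : ℕ) : ℝ) ≤ Qm ∧ ∀ b : ℤ,
      |∑ d ∈ Icc 1 X, ∑ d' ∈ (Icc 1 X).filter (fun d' => Nat.Coprime d d'), c d * c' d' *
      ∑' n : ℤ, (if ((Nat.lcm q (Nat.lcm e e') : ℕ) : ℤ) ∣ n - b then Wt N n else 0) *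
        (dP F d n * dP F' d' n)| ≤ B) :
    |∑' n : ℤ, Wt N n * (Ev t0 D (F0 n) * (Ev t1 D (F n) * Ev t2 D (F' n))) *
      Mc F F' c c' X n| ≤ (D : ℝ) ^ 3 * U ^ 3 * (Qm * B) := by
  rw [expand N hN t0 t1 t2 D F0 F F' (Mc F F' c c' X) _ (fun n => Mc_abs F F' c c' X n)]
  have hQB : 0 ≤ U ^ 3 * (Qm * B) := by positivity
  have hterm : ∀ s ∈ SI3 D, |co3 t0 t1 t2 s *
      ∑' n : ℤ, Wt N n * (ind F0 F F' n s * Mc F F' c c' X n)| ≤ U ^ 3 * (Qm * B) := by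
    rintro ⟨q, e, e'⟩ hs
    unfold SI3 at hs
    simp only [Finset.mem_product] at hs
    obtain ⟨hq, hk, hk'⟩ := hs
    by_cases h1 : t0 q = 0
    · simp [co3, h1, hQB]
    by_cases h3 : t1 e = 0
    · simp [co3, h3, hQB]
    by_cases h4 : t2 e' = 0
    · simp [co3, h4, hQB]
    have hco : |co3 t0 t1 t2 (q, e, e')| ≤ U ^ 3 := by
      unfold co3
      rw [abs_mul, abs_mul]
      have g1 := ht0 q
      have g3 := ht1 e
      have g4 := ht2 e'
      calc |t0 q| * (|t1 e| * |t2 e'|) ≤ U * (U * U) := by gcongr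
        _ = U ^ 3 := by ring
    rw [abs_mul]
    refine mul_le_mul hco ?_ (abs_nonneg _) (by positivity)
    obtain ⟨hQle, hcl'⟩ := hcl q hq e hk e' hk' h1 h3 h4
    have hQ1 : 1 ≤ Nat.lcm q (Nat.lcm e e') :=
      Nat.lcm_pos (Finset.mem_Icc.1 hq).1
        (Nat.lcm_pos (Finset.mem_Icc.1 hk).1 (Finset.mem_Icc.1 hk').1)
    have d1 : q ∣ Nat.lcm q (Nat.lcm e e') := Nat.dvd_lcm_left _ _
    have d2 : e ∣ Nat.lcm q (Nat.lcm e e') :=
      (Nat.dvd_lcm_left e e').trans (Nat.dvd_lcm_right _ _)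
    have d3 : e' ∣ Nat.lcm q (Nat.lcm e e') :=
      (Nat.dvd_lcm_right e e').trans (Nat.dvd_lcm_right _ _)
    generalize Nat.lcm q (Nat.lcm e e') = Q at hQle hcl' hQ1 d1 d2 d3
    have h6 : ∀ n : ℤ, Wt N n * (ind F0 F F' n (q, e, e') * Mc F F' c c' X n) =
        ∑ b ∈ range Q, ind F0 F F' (b : ℤ) (q, e, e') *
          (Wt N n * (II Q (n - (b : ℤ)) * Mc F F' c c' X n)) := by
      intro n
      rw [ind_classes F0 F F' hF0 hF hF' (q, e, e') Q hQ1 d1 d2 d3 n, Finset.sum_mul,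
        Finset.mul_sum]
      refine Finset.sum_congr rfl fun b _ => ?_
      ring
    have hsm : ∀ b ∈ range Q, Summable (fun n : ℤ => ind F0 F F' (b : ℤ) (q, e, e') *
          (Wt N n * (II Q (n - (b : ℤ)) * Mc F F' c c' X n))) := by
      intro b _
      obtain ⟨BM, hBM⟩ : ∃ BM : ℝ, ∀ n, |Mc F F' c c' X n| ≤ BM :=
        ⟨_, fun n => Mc_abs F F' c c' X n⟩
      refine Summable.mul_left _ (summable_bd N hN _ (1 * BM) fun n => ?_)
      rw [abs_mul]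
      exact mul_le_mul (II_abs _ _) (hBM n) (abs_nonneg _) zero_le_one
    rw [tsum_congr h6, Summable.tsum_finsetSum hsm]
    calc |∑ b ∈ range Q, ∑' n : ℤ, ind F0 F F' (b : ℤ) (q, e, e') *
          (Wt N n * (II Q (n - (b : ℤ)) * Mc F F' c c' X n))|
        ≤ ∑ b ∈ range Q, |∑' n : ℤ, ind F0 F F' (b : ℤ) (q, e, e') *
          (Wt N n * (II Q (n - (b : ℤ)) * Mc F F' c c' X n))| := Finset.abs_sum_le_sum_abs _ _
      _ ≤ ∑ b ∈ range Q, B := by
          refine Finset.sum_le_sum fun b _ => ?_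
          rw [tsum_mul_left, abs_mul, one_class N hN]
          calc _ ≤ 1 * B := mul_le_mul (ind_abs F0 F F' _ _) (hcl' b) (abs_nonneg _) zero_le_one
            _ = B := one_mul B
      _ = Q * B := by rw [Finset.sum_const, nsmul_eq_mul, Finset.card_range]
      _ ≤ Qm * B := mul_le_mul_of_nonneg_right hQle hB
  calc |∑ s ∈ SI3 D, co3 t0 t1 t2 s *
      ∑' n : ℤ, Wt N n * (ind F0 F F' n s * Mc F F' c c' X n)| ≤
      ∑ s ∈ SI3 D, |co3 t0 t1 t2 s *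
      ∑' n : ℤ, Wt N n * (ind F0 F F' n s * Mc F F' c c' X n)| := Finset.abs_sum_le_sum_abs _ _
    _ ≤ ∑ s ∈ SI3 D, U ^ 3 * (Qm * B) := Finset.sum_le_sum hterm
    _ = (D : ℝ) ^ 3 * U ^ 3 * (Qm * B) := by
        rw [Finset.sum_const, nsmul_eq_mul]
        unfold SI3
        rw [Finset.card_product, Finset.card_product, Nat.card_Icc]
        simp only [Nat.add_sub_cancel]
        push_cast
        ring

end Pool.Agent.W253.PP
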