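import Pool.Agent.W253.PP.OFDP1

set_option autoImplicit false

/-!
PP project, task OFDP, part 2 (helper253): the pairs with a common factor.
Adapted from `Pool.Agent.W108.KS.OFDK2`.
-/

namespace Pool.Agent.W253.PP

open Finset
open Pool.Agent.H442R2
open Pool.Agent.H442R2.KF
open Pool.Agent.H442R2.BX
open Pool.Agent.H442R2.BX.TaskEX
open Pool.Agent.W23.DC
open Pool.Agent.W23.SG
open Pool.Agent.W23.PL
open Pool.Agent.W23.KT
open Pool.Agent.W23.PP
open Pool.Agent.W372.PL (Ev_eq II_nonneg II_le_one mem_roughs roughs_sub sum_II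
  card_roughs harm)
open Pool.Agent.W108.KS (vk vk_nonneg Ek Ek_le fixed_le)

theorem dP_le_vk {C₁ : ℝ} (F : ℤ → ℤ) (d : ℕ) (n : ℤ) (h : (nr F d : ℝ) ≤ C₁) :
    |dP F d n| ≤ vk C₁ d (F n) := by
  rw [dP_eq]
  unfold vk
  have h1 := II_nonneg d (F n)
  have h0 := nr_nonneg F d
  have h2 : 0 ≤ (nr F d : ℝ) / (d : ℝ) := by positivity
  have h3 : (nr F d : ℝ) / (d : ℝ) ≤ C₁ / (d : ℝ) := div_le_div_of_nonneg_right h (by positivity)
  rw [abs_le]
  constructor <;> linarith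

section
variable {C₁ y : ℝ} {X : ℕ} {F F' : ℤ → ℤ} {n : ℤ} {c c' : ℕ → ℝ}

theorem c_mem (hc : CofP y X c) : ∀ d, c d ≠ 0 → d ∈ roughs y X := by
  intro d hd
  obtain ⟨h1, h2, _, h4⟩ := hc.supp d hd
  exact mem_roughs.2 ⟨⟨h1.le, h2⟩, h1, h4⟩

theorem RR_eq (hc : CofP y X c) (hc' : CofP y X c') :
    RP F c X n * RP F' c' X n = ∑ d ∈ roughs y X, ∑ d' ∈ roughs y X,
      c d * c' d' * (dP F d n * dP F' d' n) := by
  rw [← TaskTT.restr (roughs y X) (Icc 1 X) (roughs_sub y X) c c' (c_mem hc) (c_mem hc')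
    (fun d d' => dP F d n * dP F' d' n)]
  unfold RP
  rw [Finset.sum_mul_sum]
  refine Finset.sum_congr rfl fun d _ => Finset.sum_congr rfl fun d' _ => ?_
  ring

theorem Mc_eq (hc : CofP y X c) (hc' : CofP y X c') :
    Mc F F' c c' X n = ∑ d ∈ roughs y X, ∑ d' ∈ roughs y X,
      c d * c' d' * (if Nat.Coprime d d' then dP F d n * dP F' d' n else 0) := by
  have h1 : Mc F F' c c' X n = ∑ d ∈ Icc 1 X, ∑ d' ∈ Icc 1 X, c d * c' d' *
      (if Nat.Coprime d d' then dP F d n * dP F' d' n else 0) := by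
    unfold Mc
    refine Finset.sum_congr rfl fun d _ => ?_
    rw [Finset.sum_filter]
    refine Finset.sum_congr rfl fun d' _ => ?_
    split_ifs
    · rfl
    · ring
  rw [h1, TaskTT.restr (roughs y X) (Icc 1 X) (roughs_sub y X) c c' (c_mem hc) (c_mem hc')]

theorem diff_le (hC : 0 ≤ C₁) (hw : ∀ d, c d ≠ 0 → (nr F d : ℝ) ≤ C₁)
    (hw' : ∀ d, c' d ≠ 0 → (nr F' d : ℝ) ≤ C₁) (hc : CofP y X c)
    (hc' : CofP y X c') (hn : F n ≠ 0) (hn' : F' n ≠ 0) :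
    |rP F c X n * rP F' c' X n - Mc F F' c c' X n| ≤ Ek C₁ y X F F' n := by
  have h1 : rP F c X n = RP F c X n := by unfold rP; rw [if_neg hn]
  have h2 : rP F' c' X n = RP F' c' X n := by unfold rP; rw [if_neg hn']
  rw [h1, h2, RR_eq hc hc', Mc_eq hc hc', ← Finset.sum_sub_distrib]
  have h3 : ∀ d ∈ roughs y X,
      (∑ d' ∈ roughs y X, c d * c' d' * (dP F d n * dP F' d' n)) -
      (∑ d' ∈ roughs y X, c d * c' d' *
        (if Nat.Coprime d d' then dP F d n * dP F' d' n else 0)) =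
      ∑ d' ∈ roughs y X, c d * c' d' *
        (if Nat.Coprime d d' then 0 else dP F d n * dP F' d' n) := by
    intro d _
    rw [← Finset.sum_sub_distrib]
    refine Finset.sum_congr rfl fun d' _ => ?_
    split_ifs <;> ring
  rw [Finset.sum_congr rfl h3]
  refine (TaskTT.abs_dsum_le (roughs y X) c c' hc.bd hc'.bd
    (fun d d' => if Nat.Coprime d d' then 0 else dP F d n * dP F' d' n)
    (fun d d' => if Nat.Coprime d d' then 0 else vk C₁ d (F n) * vk C₁ d' (F' n))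
    ?_ ?_).trans ?_
  · intro d hd d' hd' hcd hcd'
    split_ifs
    · simp
    · rw [abs_mul]
      exact mul_le_mul (dP_le_vk _ _ _ (hw d hcd)) (dP_le_vk _ _ _ (hw' d' hcd')) (abs_nonneg _)
        (vk_nonneg hC _ _)
  · intro d _ d' _
    split_ifs
    · exact le_rfl
    · exact mul_nonneg (vk_nonneg hC _ _) (vk_nonneg hC _ _)
  · unfold Ek
    refine Finset.sum_le_sum fun d _ => ?_
    rw [Finset.sum_filter]
    refine Finset.sum_le_sum fun d' _ => ?_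
    by_cases h : Nat.Coprime d d'
    · rw [if_pos h, if_neg (not_not.2 h)]
    · rw [if_neg h, if_pos h]

theorem RP_bd (hC : 0 ≤ C₁) (hw : ∀ d, c d ≠ 0 → (nr F d : ℝ) ≤ C₁) (hc : CofP y X c) :
    |RP F c X n| ≤ X * (1 + C₁) := by
  unfold RP
  calc |∑ d ∈ Icc 1 X, c d * dP F d n| ≤ ∑ d ∈ Icc 1 X, |c d * dP F d n| :=
        Finset.abs_sum_le_sum_abs _ _
    _ ≤ ∑ d ∈ Icc 1 X, (1 + C₁) := by
        refine Finset.sum_le_sum fun d _ => ?_
        by_cases h : c d = 0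
        · rw [h, zero_mul, abs_zero]; linarith
        · rw [abs_mul]
          have h1 := dP_abs F d n
          have h2 := hw d h
          calc |c d| * |dP F d n| ≤ 1 * (1 + C₁) :=
                mul_le_mul (hc.bd d) (h1.trans (by linarith)) (abs_nonneg _) zero_le_one
            _ = _ := one_mul _
    _ = X * (1 + C₁) := by
        rw [Finset.sum_const, nsmul_eq_mul, Nat.card_Icc, Nat.add_sub_cancel]

theorem rP_bd (hC : 0 ≤ C₁) (hw : ∀ d, c d ≠ 0 → (nr F d : ℝ) ≤ C₁) (hc : CofP y X c) :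
    |rP F c X n| ≤ X * (1 + C₁) := by
  unfold rP
  split_ifs
  · rw [abs_zero]; positivity
  · exact RP_bd hC hw hc

theorem Mc_bd (hC : 0 ≤ C₁) (hw : ∀ d, c d ≠ 0 → (nr F d : ℝ) ≤ C₁)
    (hw' : ∀ d, c' d ≠ 0 → (nr F' d : ℝ) ≤ C₁) (hc : CofP y X c)
    (hc' : CofP y X c') :
    |Mc F F' c c' X n| ≤ (X * (1 + C₁)) * (X * (1 + C₁)) := by
  rw [Mc_eq hc hc']
  refine (TaskTT.abs_dsum_le (roughs y X) c c' hc.bd hc'.bd
    (fun d d' => if Nat.Coprime d d' then dP F d n * dP F' d' n else 0)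
    (fun _ _ => (1 + C₁) * (1 + C₁)) ?_ ?_).trans ?_
  · intro d hd d' hd' hcd hcd'
    split_ifs
    · rw [abs_mul]
      have h1 := hw d hcd
      have h2 := hw' d' hcd'
      exact mul_le_mul ((dP_abs F d n).trans (by linarith)) ((dP_abs F' d' n).trans (by linarith))
        (abs_nonneg _) (by linarith)
    · rw [abs_zero]; positivity
  · intro _ _ _ _; positivity
  · rw [Finset.sum_const, Finset.sum_const, nsmul_eq_mul, nsmul_eq_mul]
    have h3 := card_roughs y X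
    calc ((roughs y X).card : ℝ) * (((roughs y X).card : ℝ) * ((1 + C₁) * (1 + C₁))) ≤
        (X : ℝ) * (X * ((1 + C₁) * (1 + C₁))) := by gcongr
      _ = _ := by ring

theorem diff_bd (hC : 0 ≤ C₁) (hw : ∀ d, c d ≠ 0 → (nr F d : ℝ) ≤ C₁)
    (hw' : ∀ d, c' d ≠ 0 → (nr F' d : ℝ) ≤ C₁) (hc : CofP y X c)
    (hc' : CofP y X c') :
    |rP F c X n * rP F' c' X n - Mc F F' c c' X n| ≤
      2 * ((X * (1 + C₁)) * (X * (1 + C₁))) := by
  have h1 : |rP F c X n * rP F' c' X n| ≤ (X * (1 + C₁)) * (X * (1 + C₁)) := by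
    rw [abs_mul]
    exact mul_le_mul (rP_bd hC hw hc) (rP_bd hC hw' hc') (abs_nonneg _) (by positivity)
  have h2 := Mc_bd (n := n) hC hw hw' hc hc'
  have h3 := abs_sub (rP F c X n * rP F' c' X n) (Mc F F' c c' X n)
  linarith

end

/-! ### the primes which divide both values -/

/-- the primes larger than `y` dividing `R` -/
noncomputable def Lp (y : ℝ) (R : ℤ) : Finset ℕ :=
  R.natAbs.primeFactors.filter (fun l : ℕ => y < (l : ℝ))

/-- the number of common large prime factors, majorant -/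
noncomputable def JJ (y : ℝ) (R : ℤ) (Ω : ℕ → Finset ℕ) (n : ℤ) : ℝ :=
  ∑ l ∈ Lp y R, ∑ s ∈ Ω l, II l (n - (s : ℤ))

theorem JJ_nonneg (y : ℝ) (R : ℤ) (Ω : ℕ → Finset ℕ) (n : ℤ) : 0 ≤ JJ y R Ω n :=
  sum_nonneg fun _ _ => sum_nonneg fun _ _ => II_nonneg _ _

theorem S1_le (y : ℝ) (X : ℕ) {F F' : ℤ → ℤ} {R : ℤ} (hR : R ≠ 0)
    (hd : ∀ (n : ℤ) (l : ℕ), l.Prime → (l : ℤ) ∣ F n → (l : ℤ) ∣ F' n → (l : ℤ) ∣ R)
    (Ω : ℕ → Finset ℕ)
    (hΩ : ∀ l : ℕ, l.Prime → ∀ n : ℤ, (l : ℤ) ∣ F n → ∃ s ∈ Ω l, (l : ℤ) ∣ n - s) (n : ℤ) :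
    ∑ d ∈ roughs y X, ∑ d' ∈ (roughs y X).filter (fun d' => ¬ Nat.Coprime d d'),
      II d (F n) * II d' (F' n) ≤
      ((rd y X (F n)).card : ℝ) * ((rd y X (F' n)).card : ℝ) * JJ y R Ω n := by
  classical
  have hJ := JJ_nonneg y R Ω n
  set E := ∑ d ∈ roughs y X, ∑ d' ∈ (roughs y X).filter (fun d' => ¬ Nat.Coprime d d'),
      II d (F n) * II d' (F' n) with hE
  by_cases h0 : E = 0
  · rw [h0]
    positivity
  obtain ⟨d, hdm, hd2⟩ := exists_ne_zero_of_sum_ne_zero h0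
  obtain ⟨d', hd', hd2'⟩ := exists_ne_zero_of_sum_ne_zero hd2
  have hdv1 : (d : ℤ) ∣ F n := by
    by_contra hc
    exact hd2' (by unfold II; rw [if_neg hc, zero_mul])
  have hdv2 : (d' : ℤ) ∣ F' n := by
    by_contra hc
    exact hd2' (by unfold II; rw [if_neg hc, mul_zero])
  rw [mem_filter] at hd'
  obtain ⟨l, hl, hldd⟩ := Nat.exists_prime_and_dvd (n := Nat.gcd d d') (fun h => hd'.2 h)
  have hld : l ∣ d := hldd.trans (Nat.gcd_dvd_left _ _)
  have hld' : l ∣ d' := hldd.trans (Nat.gcd_dvd_right _ _)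
  have hRd : Rough y d := (mem_roughs.1 hdm).2
  have hly : y < (l : ℝ) := hRd.2 l hl hld
  have hla : (l : ℤ) ∣ F n := (Int.natCast_dvd_natCast.2 hld).trans hdv1
  have hla' : (l : ℤ) ∣ F' n := (Int.natCast_dvd_natCast.2 hld').trans hdv2
  have hlR := hd n l hl hla hla'
  have hlL : l ∈ Lp y R := by
    unfold Lp
    rw [mem_filter]
    exact ⟨Nat.mem_primeFactors.2 ⟨hl, Int.natCast_dvd.1 hlR, Int.natAbs_ne_zero.2 hR⟩, hly⟩
  obtain ⟨s, hs, hsn⟩ := hΩ l hl n hla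
  have hsum1 : (1 : ℝ) ≤ JJ y R Ω n := by
    have h1 : II l (n - (s : ℤ)) = 1 := by unfold II; rw [if_pos hsn]
    unfold JJ
    calc (1 : ℝ) = II l (n - (s : ℤ)) := h1.symm
      _ ≤ ∑ s ∈ Ω l, II l (n - (s : ℤ)) :=
        single_le_sum (f := fun s : ℕ => II l (n - (s : ℤ))) (fun s _ => II_nonneg _ _) hs
      _ ≤ _ := single_le_sum (f := fun l => ∑ s ∈ Ω l, II l (n - (s : ℤ)))
          (fun l _ => sum_nonneg fun s _ => II_nonneg _ _) hlL
  have hEle : E ≤ ((rd y X (F n)).card : ℝ) * ((rd y X (F' n)).card : ℝ) := by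
    calc E ≤ ∑ d ∈ roughs y X, ∑ d' ∈ roughs y X, II d (F n) * II d' (F' n) := by
          refine sum_le_sum fun d _ => ?_
          refine sum_le_sum_of_subset_of_nonneg (filter_subset _ _) fun d' _ _ => ?_
          exact mul_nonneg (II_nonneg _ _) (II_nonneg _ _)
      _ = _ := by
          rw [← sum_II, ← sum_II, sum_mul_sum]
  have h5 : (0 : ℝ) ≤ ((rd y X (F n)).card : ℝ) * ((rd y X (F' n)).card : ℝ) := by positivity
  nlinarith

/-- the sum of the majorant -/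
theorem JJ_sum {k M N : ℕ} {ε : ℝ} (hε : 0 < ε) (hN : 2 ≤ N) {R : ℤ} (hR : R ≠ 0)
    (hRN : |(R : ℝ)| ≤ (N : ℝ) ^ M) (Ω : ℕ → Finset ℕ)
    (hΩ : ∀ l : ℕ, l.Prime → (Ω l).card ≤ k) :
    Summable (fun n : ℤ => Wt (2 * N) n * JJ ((N : ℝ) ^ ε) R Ω n) ∧
      ∑' n : ℤ, Wt (2 * N) n * JJ ((N : ℝ) ^ ε) R Ω n ≤
        (M : ℝ) / ε * ((k : ℝ) * (4 * (2 * N / (N : ℝ) ^ ε + 1))) := by
  have hN0 : (0 : ℝ) < N := by exact_mod_cast (by omega : 0 < N)
  have hy : 0 < (N : ℝ) ^ ε := Real.rpow_pos_of_pos hN0 _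
  have h2N : 1 ≤ 2 * N := by omega
  have hone : ∀ l ∈ Lp ((N : ℝ) ^ ε) R, ∀ s : ℕ,
      Summable (fun n : ℤ => Wt (2 * N) n * II l (n - (s : ℤ))) ∧
      ∑' n : ℤ, Wt (2 * N) n * II l (n - (s : ℤ)) ≤ 4 * (2 * N / (N : ℝ) ^ ε + 1) := by
    intro l hl s
    unfold Lp at hl
    rw [mem_filter] at hl
    have hlp : l.Prime := Nat.prime_of_mem_primeFactors hl.1
    have h3 := Pool.Agent.W372.PL.tsW (2 * N) h2N l hlp.one_le (s : ℤ)
    refine ⟨h3.1, h3.2.trans ?_⟩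
    have h4 : ((2 * N : ℕ) : ℝ) / l ≤ 2 * N / (N : ℝ) ^ ε := by
      push_cast
      exact div_le_div_of_nonneg_left (by positivity) hy hl.2.le
    linarith
  have hcard : ((Lp ((N : ℝ) ^ ε) R).card : ℝ) ≤ (M : ℝ) / ε := by
    refine Pool.Agent.W358.KT.TaskNCK.card_primes (E := M) hN hε R.natAbs
      (Int.natAbs_ne_zero.2 hR) ?_ _ fun l hl => ?_
    · rw [Nat.cast_natAbs, Int.cast_abs]; exact hRN
    · unfold Lp at hl
      rw [mem_filter] at hl
      exact hl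
  have hfun : (fun n : ℤ => Wt (2 * N) n * JJ ((N : ℝ) ^ ε) R Ω n) =
      fun n : ℤ => ∑ l ∈ Lp ((N : ℝ) ^ ε) R, ∑ s ∈ Ω l, Wt (2 * N) n * II l (n - (s : ℤ)) := by
    funext n
    unfold JJ
    rw [Finset.mul_sum]
    refine Finset.sum_congr rfl fun l _ => ?_
    rw [Finset.mul_sum]
  have s1 : ∀ l ∈ Lp ((N : ℝ) ^ ε) R, Summable (fun n : ℤ => ∑ s ∈ Ω l,
      Wt (2 * N) n * II l (n - (s : ℤ))) := fun l hl => summable_sum fun s _ => (hone l hl s).1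
  rw [hfun]
  refine ⟨summable_sum s1, ?_⟩
  rw [Summable.tsum_finsetSum s1]
  have h4pos : (0 : ℝ) ≤ 4 * (2 * N / (N : ℝ) ^ ε + 1) := by positivity
  calc _ ≤ ∑ l ∈ Lp ((N : ℝ) ^ ε) R, (k : ℝ) * (4 * (2 * N / (N : ℝ) ^ ε + 1)) := by
        refine sum_le_sum fun l hl => ?_
        rw [Summable.tsum_finsetSum fun s _ => (hone l hl s).1]
        have hlp : l.Prime := by
          unfold Lp at hl
          rw [mem_filter] at hl
          exact Nat.prime_of_mem_primeFactors hl.1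
        calc _ ≤ ∑ s ∈ Ω l, 4 * (2 * N / (N : ℝ) ^ ε + 1) :=
              sum_le_sum fun s _ => (hone l hl s).2
          _ = ((Ω l).card : ℝ) * (4 * (2 * N / (N : ℝ) ^ ε + 1)) := by
              rw [sum_const, nsmul_eq_mul]
          _ ≤ (k : ℝ) * (4 * (2 * N / (N : ℝ) ^ ε + 1)) :=
              mul_le_mul_of_nonneg_right (by exact_mod_cast hΩ l hlp) h4pos
    _ = ((Lp ((N : ℝ) ^ ε) R).card : ℝ) * ((k : ℝ) * (4 * (2 * N / (N : ℝ) ^ ε + 1))) := by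
        rw [sum_const, nsmul_eq_mul]
    _ ≤ _ := mul_le_mul_of_nonneg_right hcard (by positivity)

end Pool.Agent.W253.PP
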