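import Pool.Agent.W253.PP.OFDP2

set_option autoImplicit false

/-!
PP project, task OFDP, part 3 (helper253): bounds for the weight, the total sum.
Adapted from `Pool.Agent.W108.KS.OFDK3`.
-/

namespace Pool.Agent.W253.PP

open Finset
open Pool.Agent.H442R2
open Pool.Agent.H442R2.KF
open Pool.Agent.H442R2.BX
open Pool.Agent.H442R2.BX.TaskEX
open Pool.Agent.W23.DC
open Pool.Agent.W23.SG
open Pool.Agent.W23.PL
open Pool.Agent.W23.KT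
open Pool.Agent.W23.PP
open Pool.Agent.W372.PL (Ev_eq II_nonneg II_le_one mem_roughs roughs_sub sum_II
  card_roughs harm Ev_abs_le Ev_le_tau tsW1)
open Pool.Agent.W108.KS (vk vk_nonneg Ek Ek_le fixed_le alg_gen)

/-- the size of the values -/
theorem size_le {k M N : ℕ} (hN : 1 ≤ N) {F : ℤ → ℤ} (hF : Sy k M N F) (n : ℤ) :
    (((F n).natAbs : ℕ) : ℝ) ≤ ((N : ℝ) * (1 + |(n : ℝ)| / N)) ^ (M + k) := by
  have hN0 : (0 : ℝ) < N := by exact_mod_cast (by omega : 0 < N)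
  have hN1 : (1 : ℝ) ≤ N := by exact_mod_cast hN
  have hNx : (N : ℝ) * (1 + |(n : ℝ)| / N) = N + |(n : ℝ)| := by field_simp
  rw [Nat.cast_natAbs, Int.cast_abs, hNx]
  have h0 := abs_nonneg (n : ℝ)
  refine (hF.gr n).trans ?_
  rw [pow_add]
  exact mul_le_mul (pow_le_pow_left₀ hN0.le (by linarith) M)
    (pow_le_pow_left₀ (by linarith) (by linarith) k) (by positivity) (by positivity)

/-- the divisor bound at the three values -/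
theorem G_gen {k M : ℕ} (κ Cτ : ℝ) (hκ : 0 < κ)
    (hκ8 : ((M + k : ℕ) : ℝ) * κ ≤ 1 / 8) (hCτ : 0 < Cτ)
    (hτ : ∀ n : ℕ, 1 ≤ n → (n.divisors.card : ℝ) ≤ Cτ * (n : ℝ) ^ κ)
    (N D : ℕ) (hN : 1 ≤ N) (U : ℝ) (Q0 Q1 Q2 : Finset ℕ) (t0 t1 t2 : ℕ → ℝ)
    (ht0 : DW Q0 D U t0) (ht1 : DW Q1 D U t1) (ht2 : DW Q2 D U t2)
    (_hp0 : ∀ m : ℤ, 0 ≤ Ev t0 D m) (hp1 : ∀ m : ℤ, 0 ≤ Ev t1 D m)
    (hp2 : ∀ m : ℤ, 0 ≤ Ev t2 D m) (F0 F F' : ℤ → ℤ) (hF0 : Sy k M N F0)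
    (hF : Sy k M N F) (hF' : Sy k M N F') (n : ℤ)
    (hn0 : F0 n ≠ 0) (hn : F n ≠ 0) (hn' : F' n ≠ 0) :
    Wt N n * (Ev t0 D (F0 n) * (Ev t1 D (F n) * Ev t2 D (F' n))) ≤
      (Cτ ^ 3 * U ^ 3 * (N : ℝ) ^ (3 * (((M + k : ℕ) : ℝ) * κ))) *
        (1 + |(n : ℝ)| / N) ^ (1 / 2 : ℝ) * Wt N n := by
  have hU : 0 ≤ U := (abs_nonneg _).trans (ht0.bd 0)
  have hN0 : (0 : ℝ) < N := by exact_mod_cast (by omega : 0 < N)
  have hN1 : (1 : ℝ) ≤ N := by exact_mod_cast hN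
  set m : ℕ := M + k with hm
  set x := 1 + |(n : ℝ)| / N with hx
  have hx1 : 1 ≤ x := by
    have : 0 ≤ |(n : ℝ)| / N := by positivity
    linarith
  set κ' : ℝ := (m : ℝ) * κ with hκ'
  have hκ'0 : 0 ≤ κ' := by positivity
  set T := Cτ * ((N : ℝ) * x) ^ κ' with hT
  have hT0 : 0 ≤ T := by positivity
  have key : ∀ t : ℤ, t ≠ 0 → ((t.natAbs : ℕ) : ℝ) ≤ ((N : ℝ) * x) ^ m →
      (t.natAbs.divisors.card : ℝ) ≤ T := by
    intro t ht htx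
    have h1 := hτ t.natAbs (Int.natAbs_pos.2 ht)
    refine h1.trans ?_
    rw [hT]
    refine mul_le_mul_of_nonneg_left ?_ hCτ.le
    calc ((t.natAbs : ℕ) : ℝ) ^ κ ≤ (((N : ℝ) * x) ^ m) ^ κ :=
          Real.rpow_le_rpow (by positivity) htx hκ.le
      _ = ((N : ℝ) * x) ^ κ' := by
          rw [← Real.rpow_natCast ((N : ℝ) * x) m, ← Real.rpow_mul (by positivity)]
  have h2 : ∀ (Q : Finset ℕ) (V : ℤ → ℤ) (t : ℕ → ℝ), Sy k M N V → DW Q D U t →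
      V n ≠ 0 → Ev t D (V n) ≤ U * T := by
    intro Q V t hV ht hnb
    refine (Ev_le_tau Q D U t ht (V n) hnb).trans ?_
    exact mul_le_mul_of_nonneg_left (key _ hnb (size_le hN hV n)) hU
  have h3 := h2 Q0 F0 t0 hF0 ht0 hn0
  have h4 := h2 Q1 F t1 hF ht1 hn
  have h4' := h2 Q2 F' t2 hF' ht2 hn'
  have h5 : T ^ 3 ≤ Cτ ^ 3 * (N : ℝ) ^ (3 * κ') * x ^ (1 / 2 : ℝ) := by
    have e1 : T ^ 3 = Cτ ^ 3 * ((N : ℝ) ^ (3 * κ') * x ^ (3 * κ')) := by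
      rw [hT, mul_pow, ← Real.rpow_natCast, ← Real.rpow_natCast, ← Real.rpow_mul (by positivity),
        ← Real.mul_rpow hN0.le (by linarith)]
      push_cast
      rw [mul_comm κ' 3]
    rw [e1]
    have e2 : x ^ (3 * κ') ≤ x ^ (1 / 2 : ℝ) :=
      Real.rpow_le_rpow_of_exponent_le hx1 (by linarith)
    have e3 : (0 : ℝ) ≤ Cτ ^ 3 * (N : ℝ) ^ (3 * κ') := by positivity
    calc Cτ ^ 3 * ((N : ℝ) ^ (3 * κ') * x ^ (3 * κ')) =
          Cτ ^ 3 * (N : ℝ) ^ (3 * κ') * x ^ (3 * κ') := by ring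
      _ ≤ _ := mul_le_mul_of_nonneg_left e2 e3
  have hW := (Wt_pos N n).le
  have h6 : Ev t1 D (F n) * Ev t2 D (F' n) ≤ (U * T) * (U * T) :=
    mul_le_mul h4 h4' (hp2 _) (by positivity)
  calc Wt N n * (Ev t0 D (F0 n) * (Ev t1 D (F n) * Ev t2 D (F' n)))
      ≤ Wt N n * ((U * T) * ((U * T) * (U * T))) := by
        refine mul_le_mul_of_nonneg_left ?_ hW
        exact mul_le_mul h3 h6 (mul_nonneg (hp1 _) (hp2 _)) (by positivity)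
    _ = U ^ 3 * Wt N n * T ^ 3 := by ring
    _ ≤ U ^ 3 * Wt N n * (Cτ ^ 3 * (N : ℝ) ^ (3 * κ') * x ^ (1 / 2 : ℝ)) :=
        mul_le_mul_of_nonneg_left h5 (by positivity)
    _ = _ := by ring

theorem G_crude (D : ℕ) (U : ℝ) (Q0 Q1 Q2 : Finset ℕ) (t0 t1 t2 : ℕ → ℝ)
    (ht0 : DW Q0 D U t0) (ht1 : DW Q1 D U t1) (ht2 : DW Q2 D U t2) (b a a' : ℤ) :
    |Ev t0 D b * (Ev t1 D a * Ev t2 D a')| ≤ (D : ℝ) ^ 3 * U ^ 3 := by
  have hU : 0 ≤ U := (abs_nonneg _).trans (ht0.bd 0)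
  have h1 := Ev_abs_le Q0 D U t0 ht0 b
  have h2 := Ev_abs_le Q1 D U t1 ht1 a
  have h3 := Ev_abs_le Q2 D U t2 ht2 a'
  rw [abs_mul, abs_mul]
  calc |Ev t0 D b| * (|Ev t1 D a| * |Ev t2 D a'|)
      ≤ (D * U) * ((D * U) * (D * U)) :=
        mul_le_mul h1 (mul_le_mul h2 h3 (abs_nonneg _) (by positivity)) (by positivity)
          (by positivity)
    _ = _ := by ring

/-- the sum, given the bound for the coprime pairs -/
theorem total (k M N D X : ℕ) (hN : 2 ≤ N) (hXN : X ≤ N) (ε : ℝ) (hε : 0 < ε)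
    (U : ℝ) (Q0 Q1 Q2 : Finset ℕ) (t0 t1 t2 : ℕ → ℝ)
    (ht0 : DW Q0 D U t0) (ht1 : DW Q1 D U t1) (ht2 : DW Q2 D U t2)
    (hp0 : ∀ m : ℤ, 0 ≤ Ev t0 D m) (hp1 : ∀ m : ℤ, 0 ≤ Ev t1 D m)
    (hp2 : ∀ m : ℤ, 0 ≤ Ev t2 D m) (F0 F F' : ℤ → ℤ) (hF0 : Sy k M N F0)
    (hF : Sy k M N F) (hF' : Sy k M N F') (hCp : Cp M N F F') (c c' : ℕ → ℝ)
    (hc : CofP ((N : ℝ) ^ ε) X c) (hc' : CofP ((N : ℝ) ^ ε) X c') (C₁ : ℝ) (hC₁ : 0 ≤ C₁)
    (hw : ∀ d, c d ≠ 0 → (nr F d : ℝ) ≤ C₁) (hw' : ∀ d, c' d ≠ 0 → (nr F' d : ℝ) ≤ C₁)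
    (C0 : ℝ) (hC0 : 0 ≤ C0)
    (hrc : ∀ V : ℤ → ℤ, Sy k M N V → ∀ n : ℤ, V n ≠ 0 →
      ((rd ((N : ℝ) ^ ε) X (V n)).card : ℝ) ≤ C0 * (1 + |(n : ℝ)| / N) ^ (1 / 4 : ℝ))
    (κ Cτ : ℝ) (hκ : 0 < κ) (hκ8 : ((M + k : ℕ) : ℝ) * κ ≤ 1 / 8) (hCτ : 0 < Cτ)
    (hτ : ∀ n : ℕ, 1 ≤ n → (n.divisors.card : ℝ) ≤ Cτ * (n : ℝ) ^ κ)
    (B : ℝ) (hB : |∑' n : ℤ, Wt N n * (Ev t0 D (F0 n) * (Ev t1 D (F n) * Ev t2 D (F' n))) *
      Mc F F' c c' X n| ≤ B) :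
    |∑' n : ℤ, Wt N n * (Ev t0 D (F0 n) * (Ev t1 D (F n) * Ev t2 D (F' n))) *
      (rP F c X n * rP F' c' X n)| ≤ B +
      (3 * k) * ((D : ℝ) ^ 3 * U ^ 3 *
        (2 * ((X * (1 + C₁)) * (X * (1 + C₁))))) +
      2 * (Cτ ^ 3 * U ^ 3 * (N : ℝ) ^ (3 * (((M + k : ℕ) : ℝ) * κ))) *
        (C0 ^ 2 * ((M : ℝ) / ε * ((k : ℝ) * (4 * (2 * N / (N : ℝ) ^ ε + 1)))) +
        (C₁ * (1 / ε * ((1 + Real.log N) / (N : ℝ) ^ ε))) * (2 * C0 + C₁ * (1 + Real.log N)) *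
          (4 * (2 * N + 1))) := by
  classical
  obtain ⟨R, hR, hRN, hRd⟩ := hCp
  have hN0 : (0 : ℝ) < N := by exact_mod_cast (by omega : 0 < N)
  have hlog : 0 ≤ Real.log N := Real.log_natCast_nonneg N
  have hU : 0 ≤ U := (abs_nonneg _).trans (ht0.bd 0)
  -- the classes
  have hΩex : ∀ l : ℕ, ∃ Ω : Finset ℕ, l.Prime → (Ω.card ≤ k ∧ ∀ n : ℤ,
      (l : ℤ) ∣ F n → ∃ s ∈ Ω, (l : ℤ) ∣ n - s) := by
    intro l
    by_cases hl : l.Prime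
    · obtain ⟨Ω, h1, h2⟩ := hF.lift l 1 hl le_rfl
      refine ⟨Ω, fun _ => ⟨h1, fun n hn => ?_⟩⟩
      have h3 := h2 n (by simpa using hn)
      simpa using h3
    · exact ⟨∅, fun h => absurd h hl⟩
  choose Ω hΩ using hΩex
  set A1 : ℝ := (D : ℝ) ^ 3 * U ^ 3 with hA1
  have hA10 : 0 ≤ A1 := by positivity
  set g : ℤ → ℝ := fun n => Ev t0 D (F0 n) * (Ev t1 D (F n) * Ev t2 D (F' n)) with hg
  have hg0 : ∀ n, 0 ≤ g n := fun n => mul_nonneg (hp0 _)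
    (mul_nonneg (hp1 _) (hp2 _))
  have hgA : ∀ n, g n ≤ A1 := fun n =>
    (le_abs_self _).trans (G_crude D U Q0 Q1 Q2 t0 t1 t2 ht0 ht1 ht2 _ _ _)
  set H : ℤ → ℝ := fun n => rP F c X n * rP F' c' X n - Mc F F' c c' X n with hH
  set Xb : ℝ := (X * (1 + C₁)) * (X * (1 + C₁)) with hXb
  have hXb0 : 0 ≤ Xb := by positivity
  -- summability
  have hs1 : Summable (fun n : ℤ => Wt N n * (g n * (rP F c X n * rP F' c' X n))) := by
    refine summable_bd N (by omega) _ (A1 * Xb) fun n => ?_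
    rw [abs_mul (g n), abs_mul (rP F c X n), abs_of_nonneg (hg0 n)]
    exact mul_le_mul (hgA n) (mul_le_mul (rP_bd hC₁ hw hc)
      (rP_bd hC₁ hw' hc') (abs_nonneg _) (by positivity)) (by positivity) hA10
  have hs2 : Summable (fun n : ℤ => Wt N n * (g n * Mc F F' c c' X n)) := by
    refine summable_bd N (by omega) _ (A1 * Xb) fun n => ?_
    rw [abs_mul (g n), abs_of_nonneg (hg0 n)]
    exact mul_le_mul (hgA n) (Mc_bd hC₁ hw hw' hc hc') (abs_nonneg _) hA10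
  have hsplit : ∑' n : ℤ, Wt N n * (Ev t0 D (F0 n) * (Ev t1 D (F n) * Ev t2 D (F' n))) *
      (rP F c X n * rP F' c' X n) =
      ∑' n : ℤ, Wt N n * (Ev t0 D (F0 n) * (Ev t1 D (F n) * Ev t2 D (F' n))) *
        Mc F F' c c' X n + ∑' n : ℤ, Wt N n * g n * H n := by
    have e1 : ∑' n : ℤ, Wt N n * (Ev t0 D (F0 n) * (Ev t1 D (F n) * Ev t2 D (F' n))) *
        (rP F c X n * rP F' c' X n) =
        ∑' n : ℤ, Wt N n * (g n * (rP F c X n * rP F' c' X n)) :=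
      tsum_congr fun n => by rw [hg]; ring
    have e2 : ∑' n : ℤ, Wt N n * (Ev t0 D (F0 n) * (Ev t1 D (F n) * Ev t2 D (F' n))) *
        Mc F F' c c' X n =
        ∑' n : ℤ, Wt N n * (g n * Mc F F' c c' X n) :=
      tsum_congr fun n => by rw [hg]; ring
    have e3 : ∑' n : ℤ, Wt N n * g n * H n =
        ∑' n : ℤ, (Wt N n * (g n * (rP F c X n * rP F' c' X n)) -
          Wt N n * (g n * Mc F F' c c' X n)) :=
      tsum_congr fun n => by rw [hH]; ring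
    rw [e1, e2, e3, Summable.tsum_sub hs1 hs2]
    ring
  -- the majorant
  set K1 : ℝ := Cτ ^ 3 * U ^ 3 * (N : ℝ) ^ (3 * (((M + k : ℕ) : ℝ) * κ)) with hK1
  have hK10 : 0 ≤ K1 := by positivity
  set K2 : ℝ := A1 * (2 * Xb) with hK2
  have hK20 : 0 ≤ K2 := by positivity
  set τ0 : ℝ := C₁ * (1 / ε * ((1 + Real.log N) / (N : ℝ) ^ ε)) with hτ0
  have hτ00 : 0 ≤ τ0 := by positivity
  set H0 : ℝ := C₁ * (1 + Real.log N) with hH0
  have hH00 : 0 ≤ H0 := by positivity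
  obtain ⟨hJs, hJt⟩ := JJ_sum (k := k) (M := M) hε hN hR hRN Ω (fun l hl => (hΩ l hl).1)
  obtain ⟨hWs, hWt⟩ := tsW1 (2 * N) (by omega)
  have hWs' : Summable (fun n : ℤ => Wt (2 * N) n) := by
    refine hWs.congr fun n => ?_
    rw [II_one, mul_one]
  have hWt' : ∑' n : ℤ, Wt (2 * N) n ≤ 4 * (2 * N + 1) := by
    have e : ∑' n : ℤ, Wt (2 * N) n = ∑' n : ℤ, Wt (2 * N) n * II 1 n :=
      tsum_congr fun n => by rw [II_one, mul_one]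
    rw [e]
    refine hWt.trans (le_of_eq ?_)
    push_cast
    ring
  obtain ⟨Z0', hZ01, hZ0'⟩ := hF0.ze
  obtain ⟨Z, hZ1, hZ⟩ := hF.ze
  obtain ⟨Z', hZ1', hZ'⟩ := hF'.ze
  set Z0 : Finset ℤ := Z0' ∪ (Z ∪ Z') with hZ0
  have hZ0c : (Z0.card : ℝ) ≤ 3 * k := by
    have h1 : Z0.card ≤ 3 * k := by
      rw [hZ0]
      have h2 := Finset.card_union_le Z0' (Z ∪ Z')
      have h3 := Finset.card_union_le Z Z'
      omega
    exact_mod_cast h1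
  have hpt : ∀ n : ℤ, ‖Wt N n * g n * H n‖ ≤ (if n ∈ Z0 then K2 else 0) +
      2 * K1 * (C0 ^ 2 * (Wt (2 * N) n * JJ ((N : ℝ) ^ ε) R Ω n) +
        τ0 * (2 * C0 + H0) * Wt (2 * N) n) := by
    intro n
    have hJ0 := JJ_nonneg ((N : ℝ) ^ ε) R Ω n
    have hW20 := (Wt_pos (2 * N) n).le
    have hM1 : 0 ≤ 2 * K1 * (C0 ^ 2 * (Wt (2 * N) n * JJ ((N : ℝ) ^ ε) R Ω n) +
        τ0 * (2 * C0 + H0) * Wt (2 * N) n) := by positivity
    rw [Real.norm_eq_abs, abs_mul, abs_of_nonneg (mul_nonneg (Wt_pos N n).le (hg0 n))]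
    by_cases hsp : n ∈ Z0
    · rw [if_pos hsp]
      have h1 : |H n| ≤ 2 * Xb := diff_bd hC₁ hw hw' hc hc'
      have h4 : Wt N n * g n ≤ A1 := by
        calc Wt N n * g n ≤ 1 * A1 :=
              mul_le_mul (TaskTT.Wt_le_one N n) (hgA n) (hg0 n) zero_le_one
          _ = A1 := one_mul _
      have h5 : Wt N n * g n * |H n| ≤ K2 :=
        mul_le_mul h4 h1 (abs_nonneg _) hA10
      linarith
    · rw [if_neg hsp, zero_add]
      rw [hZ0, Finset.mem_union, Finset.mem_union] at hsp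
      push Not at hsp
      obtain ⟨hz0, hz, hz'⟩ := hsp
      have hn0 : F0 n ≠ 0 := fun h => hz0 (hZ0' n h)
      have hna : F n ≠ 0 := fun h => hz (hZ n h)
      have hna' : F' n ≠ 0 := fun h => hz' (hZ' n h)
      have h1 : |H n| ≤ Ek C₁ ((N : ℝ) ^ ε) X F F' n :=
        diff_le hC₁ hw hw' hc hc' hna hna'
      have hE0 : 0 ≤ Ek C₁ ((N : ℝ) ^ ε) X F F' n := (abs_nonneg _).trans h1
      have h2 := G_gen κ Cτ hκ hκ8 hCτ hτ N D (by omega) U Q0 Q1 Q2 t0 t1 t2 ht0 ht1 ht2 hp0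
        hp1 hp2 F0 F F' hF0 hF hF' n hn0 hna hna'
      set x := 1 + |(n : ℝ)| / N with hx
      have hx1 : 1 ≤ x := by
        have : 0 ≤ |(n : ℝ)| / N := by positivity
        linarith
      have hx0 : 0 < x := by linarith
      have e1 : x ^ (1 / 4 : ℝ) * x ^ (1 / 4 : ℝ) = x ^ (1 / 2 : ℝ) := by
        rw [← Real.rpow_add hx0]; norm_num
      have e2 : x ^ (1 / 2 : ℝ) * x ^ (1 / 2 : ℝ) = x := by
        rw [← Real.rpow_add hx0]; norm_num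
      have e3 : x ^ (1 / 2 : ℝ) * x ^ (1 / 4 : ℝ) ≤ x := by
        rw [← Real.rpow_add hx0]
        calc x ^ ((1 / 2 : ℝ) + 1 / 4) ≤ x ^ (1 : ℝ) :=
              Real.rpow_le_rpow_of_exponent_le hx1 (by norm_num)
          _ = x := Real.rpow_one _
      have h3 := (BX.GS N (by omega)).1 n
      have hEk := Ek_le (C₁ := C₁) (y := (N : ℝ) ^ ε)
        (τ₀ := 1 / ε * ((1 + Real.log N) / (N : ℝ) ^ ε)) (H0 := 1 + Real.log N) hC₁
        (by positivity) (X := X) (fun d hd => fixed_le hε hN hXN d hd)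
        (harm X N hXN ((N : ℝ) ^ ε)) F F' n
      have hS1 := S1_le ((N : ℝ) ^ ε) X hR hRd Ω (fun l hl => (hΩ l hl).2) n
      have h6 : Wt N n * g n * |H n| ≤
          Wt N n * g n * Ek C₁ ((N : ℝ) ^ ε) X F F' n :=
        mul_le_mul_of_nonneg_left h1 (mul_nonneg (Wt_pos N n).le (hg0 n))
      refine h6.trans ?_
      refine alg_gen (Wt N n * g n) K1 (x ^ (1 / 2 : ℝ)) (x ^ (1 / 4 : ℝ)) x (Wt N n)
        (Wt (2 * N) n) C0 ((rd ((N : ℝ) ^ ε) X (F n)).card : ℝ)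
        ((rd ((N : ℝ) ^ ε) X (F' n)).card : ℝ) (JJ ((N : ℝ) ^ ε) R Ω n) _ τ0 H0 hK10
        (Wt_pos N n).le (by positivity) (Real.one_le_rpow hx1 (by norm_num)) e1 e2 e3 h2
        (by positivity) (by positivity) (hrc F hF n hna) (hrc F' hF' n hna') hJ0 hτ00 hH00 ?_ hC0
        hE0 h3
      linarith
  have hsum1 : HasSum (fun n : ℤ => if n ∈ Z0 then K2 else 0) (∑ n ∈ Z0, K2) := by
    have h1 : HasSum (fun n : ℤ => if n ∈ Z0 then K2 else 0)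
        (∑ n ∈ Z0, if n ∈ Z0 then K2 else 0) :=
      hasSum_sum_of_ne_finset_zero (fun n hn => if_neg hn)
    have h2 : ∑ n ∈ Z0, (if n ∈ Z0 then K2 else 0) = ∑ n ∈ Z0, K2 :=
      Finset.sum_congr rfl fun n hn => if_pos hn
    rwa [h2] at h1
  have hsum := hsum1.add (((hJs.hasSum.mul_left (C0 ^ 2)).add
    (hWs'.hasSum.mul_left (τ0 * (2 * C0 + H0)))).mul_left (2 * K1))
  have hfin := tsum_of_norm_bounded hsum hpt
  rw [Real.norm_eq_abs] at hfin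
  rw [hsplit]
  refine (abs_add_le _ _).trans ?_
  have hcardK : ∑ n ∈ Z0, K2 ≤ (3 * k) * K2 := by
    rw [Finset.sum_const, nsmul_eq_mul]
    exact mul_le_mul_of_nonneg_right hZ0c hK20
  have hlast : 2 * K1 * (C0 ^ 2 * (∑' n : ℤ, Wt (2 * N) n * JJ ((N : ℝ) ^ ε) R Ω n) +
      τ0 * (2 * C0 + H0) * ∑' n : ℤ, Wt (2 * N) n) ≤
      2 * K1 * (C0 ^ 2 * ((M : ℝ) / ε * ((k : ℝ) * (4 * (2 * N / (N : ℝ) ^ ε + 1)))) +
        τ0 * (2 * C0 + H0) * (4 * (2 * N + 1))) := by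
    refine mul_le_mul_of_nonneg_left ?_ (by positivity)
    exact add_le_add (mul_le_mul_of_nonneg_left hJt (by positivity))
      (mul_le_mul_of_nonneg_left hWt' (by positivity))
  linarith

end Pool.Agent.W253.PP
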